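import Mathlib
import Pool.Agent.Lib.MP_c3b2eb_al.Defs
import Pool.Agent.Lib.MP_c3b2eb_al.Part8

set_option autoImplicit false

universe u v

open Pool.Agent.Lib.MP_c3b2eb_al

namespace Pool.Agent.Results.MP_c3b2eb_al.GradableApprox

/-- If a finitely generated right module over a `ℤ`-graded right artinian ring has a right
approximation by finitely generated gradable modules, then it is gradable. -/
theorem result (R : Type u) [Ring R] (𝒜 : ℤ → AddSubgroup R) [GradedRing 𝒜] [IsArtinian Rᵐᵒᵖ R]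
    (N : Type v) [AddCommGroup N] [Module Rᵐᵒᵖ N] [Module.Finite Rᵐᵒᵖ N]
    (hN : ∃ (C : Type v) (_ : AddCommGroup C) (_ : Module Rᵐᵒᵖ C) (f : C →ₗ[Rᵐᵒᵖ] N),
      IsRightGradableApproximation 𝒜 f) :
    Gradable 𝒜 N :=
  gradable_of_approx R 𝒜 N hN

end Pool.Agent.Results.MP_c3b2eb_al.GradableApprox
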